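import Mathlib
import Pool.Agent.PZ871.Core

/-!
Pisier's question: an `n`-dimensional space (`n ≥ 2`) of cotype `q` with constant `K` which 2-embeds
into `ℓ_∞^N` satisfies `N ≥ exp (c n)` with `c = c(q,K) > 0`.
-/
set_option autoImplicit false
set_option maxHeartbeats 1000000
namespace Pool.Agent.Results.MP_3d048b_an.Affirmative
open Pool.Agent.PZ871
open Pool.Agent.PZ871.M_core (core)
open MeasureTheory Set
open scoped RealInnerProductSpace ENNReal





/-- Rademacher cotype `q` with constant `K` -/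
def HasCotype (X : Type) [NormedAddCommGroup X] [NormedSpace ℝ X] (q K : ℝ) : Prop :=
  ∀ (m : ℕ) (x : Fin m → X),
    (∑ i, ‖x i‖ ^ q) ^ (1/q) ≤
      K * Real.sqrt ((∑ ε : Fin m → Bool, ‖∑ i, (if ε i then (1:ℝ) else -1) • x i‖ ^ 2) / 2 ^ m)

/-- `X` 2-embeds into `ℓ_∞^N` -/
def Embeds2 (X : Type) [NormedAddCommGroup X] [NormedSpace ℝ X] (N : ℕ) : Prop :=
  ∃ T : X →ₗ[ℝ] (Fin N → ℝ), ∀ x, ‖x‖ ≤ ‖T x‖ ∧ ‖T x‖ ≤ 2 * ‖x‖

theorem exK (q K : ℝ) (hq : 2 ≤ q) : ∃ k : ℕ, 1 ≤ k ∧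
    2 * |K| < (k : ℝ) ^ (1/q) * (Real.exp (-100) / 4) := by
  have hpos : 0 < 1 / q := by positivity
  have h1 := ((tendsto_rpow_atTop hpos).comp tendsto_natCast_atTop_atTop).eventually_gt_atTop
    (2 * |K| / (Real.exp (-100) / 4))
  obtain ⟨k, hk1, hk2⟩ := (h1.and (Filter.eventually_ge_atTop 1)).exists
  refine ⟨k, hk2, ?_⟩
  have he : 0 < Real.exp (-100) / 4 := by positivity
  have := (div_lt_iff₀ he).1 hk1
  simpa using this

theorem sq_avg (X : Type) [NormedAddCommGroup X] [NormedSpace ℝ X] (k : ℕ) (x : Fin k → X)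
    (h : ∀ ε : Fin k → ℝ, (∀ i, ε i = 1 ∨ ε i = -1) → ‖∑ i, ε i • x i‖ ≤ 2) :
    Real.sqrt ((∑ ε : Fin k → Bool, ‖∑ i, (if ε i then (1:ℝ) else -1) • x i‖ ^ 2) / 2 ^ k) ≤ 2 := by
  rw [Real.sqrt_le_left (by norm_num)]
  rw [div_le_iff₀ (by positivity)]
  have h1 : (∑ ε : Fin k → Bool, ‖∑ i, (if ε i then (1:ℝ) else -1) • x i‖ ^ 2) ≤
      ∑ ε : Fin k → Bool, (2:ℝ) ^ 2 := by
    refine Finset.sum_le_sum fun ε _ => ?_
    have := h (fun i => if ε i then (1:ℝ) else -1) (fun i => by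
      by_cases he : ε i <;> simp [he])
    exact pow_le_pow_left₀ (norm_nonneg _) this 2
  refine h1.trans ?_
  simp [mul_comm]

theorem lower (X : Type) [NormedAddCommGroup X] [NormedSpace ℝ X] (q : ℝ) (hq : 2 ≤ q)
    (k : ℕ) (x : Fin k → X) (a : ℝ) (ha : 0 < a) (h : ∀ i, a ≤ ‖x i‖) :
    (k : ℝ) ^ (1/q) * a ≤ (∑ i, ‖x i‖ ^ q) ^ (1/q) := by
  have hq0 : 0 < q := by linarith
  have h1 : (k : ℝ) * a ^ q ≤ ∑ i, ‖x i‖ ^ q := by
    have : ∑ i : Fin k, a ^ q ≤ ∑ i, ‖x i‖ ^ q :=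
      Finset.sum_le_sum fun i _ => Real.rpow_le_rpow ha.le (h i) hq0.le
    simpa using this
  have h2 : ((k : ℝ) * a ^ q) ^ (1/q) = (k : ℝ) ^ (1/q) * a := by
    rw [Real.mul_rpow (by positivity) (by positivity), ← Real.rpow_mul ha.le]
    rw [mul_one_div_cancel hq0.ne', Real.rpow_one]
  rw [← h2]
  exact Real.rpow_le_rpow (by positivity) h1 (by positivity)

theorem body_of (n N : ℕ) (X : Type) [NormedAddCommGroup X] [NormedSpace ℝ X]
    (T : X →ₗ[ℝ] (Fin N → ℝ)) (hT : ∀ x, ‖x‖ ≤ ‖T x‖ ∧ ‖T x‖ ≤ 2 * ‖x‖)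
    (φ : E n ≃L[ℝ] X) (f : Fin N → (E n →L[ℝ] ℝ)) (hf : ∀ j x, f j x = T (φ x) j) :
    Body n {x : E n | ∀ j, |f j x| ≤ 1} := by
  refine ⟨?_, ?_, ?_, ?_⟩
  · refine Metric.isCompact_of_isClosed_isBounded ?_ ?_
    · rw [Set.setOf_forall]
      exact isClosed_iInter fun j =>
        isClosed_le (continuous_abs.comp (f j).continuous) continuous_const
    · refine (Metric.isBounded_closedBall (x := (0 : E n))
        (r := ‖(φ.symm : X →L[ℝ] E n)‖)).subset ?_
      intro x hx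
      rw [mem_closedBall_zero_iff]
      have h1 : ‖T (φ x)‖ ≤ 1 := by
        rw [pi_norm_le_iff_of_nonneg zero_le_one]
        intro j
        have := hx j
        rw [hf j x] at this
        exact this
      have h2 : ‖φ x‖ ≤ 1 := (hT _).1.trans h1
      have h3 : ‖φ.symm (φ x)‖ ≤ ‖(φ.symm : X →L[ℝ] E n)‖ * ‖φ x‖ :=
        (φ.symm : X →L[ℝ] E n).le_opNorm (φ x)
      rw [φ.symm_apply_apply] at h3
      calc ‖x‖ ≤ ‖(φ.symm : X →L[ℝ] E n)‖ * ‖φ x‖ := h3
        _ ≤ ‖(φ.symm : X →L[ℝ] E n)‖ * 1 := by gcongr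
        _ = _ := mul_one _
  · intro x hx y hy a b ha hb hab j
    have h1 := hx j
    have h2 := hy j
    rw [map_add, map_smul, map_smul, smul_eq_mul, smul_eq_mul]
    rw [abs_le] at h1 h2 ⊢
    constructor
    · nlinarith [h1.1, h2.1]
    · nlinarith [h1.2, h2.2]
  · intro x hx j
    have := hx j
    rwa [map_neg, abs_neg]
  · refine ⟨1 / (2 * ‖(φ : E n →L[ℝ] X)‖ + 1), by positivity, ?_⟩
    intro x hx j
    rw [mem_ball_zero_iff] at hx
    have hp : 0 < 2 * ‖(φ : E n →L[ℝ] X)‖ + 1 := by positivity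
    rw [lt_div_iff₀ hp] at hx
    have h1 : ‖T (φ x) j‖ ≤ ‖T (φ x)‖ := norm_le_pi_norm _ j
    have h2 := (hT (φ x)).2
    have h3 : ‖φ x‖ ≤ ‖(φ : E n →L[ℝ] X)‖ * ‖x‖ := (φ : E n →L[ℝ] X).le_opNorm x
    rw [hf j x]
    rw [Real.norm_eq_abs] at h1
    nlinarith [norm_nonneg x]

theorem result (q K : ℝ) (hq : 2 ≤ q) : ∃ c : ℝ, 0 < c ∧
    ∀ (X : Type) [NormedAddCommGroup X] [NormedSpace ℝ X] [FiniteDimensional ℝ X] (N : ℕ),
      2 ≤ Module.finrank ℝ X → HasCotype X q K → Embeds2 X N →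
        Real.exp (c * Module.finrank ℝ X) ≤ N := by
  obtain ⟨k, hk1, hk⟩ := exK q K hq
  obtain ⟨δ, hδ, n0, hcore⟩ := core k hk1
  have hlog : 0 < Real.log 2 := Real.log_pos (by norm_num)
  refine ⟨min δ (Real.log 2 / (n0 + 1)), lt_min hδ (by positivity), ?_⟩
  intro X _ _ _ N hn hcot hemb
  obtain ⟨T, hT⟩ := hemb
  have hinj : Function.Injective T := by
    rw [injective_iff_map_eq_zero]
    intro x hx
    have := (hT x).1
    rw [hx, norm_zero] at this
    exact norm_le_zero_iff.1 this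
  have hnN : Module.finrank ℝ X ≤ N := by
    have := LinearMap.finrank_le_finrank_of_injective hinj
    simpa using this
  set n := Module.finrank ℝ X with hndef
  set c := min δ (Real.log 2 / (n0 + 1)) with hc
  have hc1 : c ≤ δ := min_le_left _ _
  have hc2 : c ≤ Real.log 2 / (n0 + 1) := min_le_right _ _
  by_cases hsmall : n ≤ n0
  · have hnn : (n : ℝ) ≤ n0 + 1 := by
      have : (n : ℝ) ≤ n0 := by exact_mod_cast hsmall
      linarith
    have h1 : c * n ≤ Real.log 2 := by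
      calc c * n ≤ (Real.log 2 / (n0 + 1)) * (n0 + 1) := by gcongr
        _ = Real.log 2 := by field_simp
    calc Real.exp (c * n) ≤ Real.exp (Real.log 2) := Real.exp_le_exp.2 h1
      _ = 2 := Real.exp_log (by norm_num)
      _ ≤ n := by exact_mod_cast hn
      _ ≤ N := by exact_mod_cast hnN
  · by_contra hlt
    rw [not_le] at hlt
    push Not at hsmall
    have hNδ : (N : ℝ) ≤ Real.exp (δ * n) := by
      refine hlt.le.trans (Real.exp_le_exp.2 ?_)
      gcongr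
    have hfr : Module.finrank ℝ (E n) = Module.finrank ℝ X := by
      rw [finrank_euclideanSpace_fin]
    let φ : E n ≃L[ℝ] X := ContinuousLinearEquiv.ofFinrankEq hfr
    let f : Fin N → (E n →L[ℝ] ℝ) := fun j =>
      LinearMap.toContinuousLinearMap
        ((LinearMap.proj j : (Fin N → ℝ) →ₗ[ℝ] ℝ).comp
          (T.comp ((φ : E n →L[ℝ] X) : E n →ₗ[ℝ] X)))
    have hf : ∀ j x, f j x = T (φ x) j := fun j x => rfl
    obtain ⟨s, hs1, hs2⟩ := hcore n N hsmall.le hNδ f (body_of n N X T hT φ f hf)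
    have hlow : ∀ i, Real.exp (-100) / 4 ≤ ‖φ (s i)‖ := by
      intro i
      obtain ⟨j, hj⟩ := hs1 i
      rw [hf] at hj
      have h1 : ‖T (φ (s i)) j‖ ≤ ‖T (φ (s i))‖ := norm_le_pi_norm _ j
      have h2 := (hT (φ (s i))).2
      rw [Real.norm_eq_abs] at h1
      have h3 := le_abs_self (T (φ (s i)) j)
      linarith
    have hup : ∀ ε : Fin k → ℝ, (∀ i, ε i = 1 ∨ ε i = -1) → ‖∑ i, ε i • φ (s i)‖ ≤ 2 := by
      intro ε hε
      have h0 : ∑ i, ε i • φ (s i) = φ (∑ i, ε i • s i) := by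
        rw [map_sum]
        refine Finset.sum_congr rfl fun i _ => ?_
        rw [map_smul]
      rw [h0]
      refine (hT _).1.trans ?_
      rw [pi_norm_le_iff_of_nonneg (by norm_num)]
      intro j
      have := hs2 ε hε j
      rw [hf] at this
      exact this
    have h1 := hcot k (fun i => φ (s i))
    have h2 := lower X q hq k (fun i => φ (s i)) (Real.exp (-100) / 4) (by positivity) hlow
    have h3 := sq_avg X k (fun i => φ (s i)) hup
    set R := Real.sqrt ((∑ ε : Fin k → Bool,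
      ‖∑ i, (if ε i then (1:ℝ) else -1) • (fun i => φ (s i)) i‖ ^ 2) / 2 ^ k) with hR
    have hR0 : 0 ≤ R := Real.sqrt_nonneg _
    have h4 : K * R ≤ 2 * |K| := by
      calc K * R ≤ |K| * R := by gcongr; exact le_abs_self K
        _ ≤ |K| * 2 := by gcongr
        _ = 2 * |K| := mul_comm _ _
    linarith

end Pool.Agent.Results.MP_3d048b_an.Affirmative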