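import Mathlib
import Pool.Agent.Helper799.PisierN.Main

/-!
Subspaces of lattices with cotype `q`: every `n`-dimensional normed space `X` which is
`D`-isomorphic to a subspace of `ℝ^m` with a lattice norm of Rademacher cotype `q` with constant
at most `K`, and which 2-embeds into the space `ℓ_∞^N`, satisfies `N ≥ exp (c n)`, with
`c > 0` depending only on `q`, `K` and `D`.
-/

set_option autoImplicit false

namespace Pool.Agent.Results.MP_3d048b_an.CotypeLattices

open Pool.Agent.Helper799.PisierN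

universe u

theorem result (q K D : ℝ) (hq : 2 ≤ q) :
    ∃ c : ℝ, 0 < c ∧ ∀ (n N m : ℕ), 2 ≤ n →
      ∀ (X : Type u) [NormedAddCommGroup X] [NormedSpace ℝ X], Module.finrank ℝ X = n →
      ∀ (Nrm : (Fin m → ℝ) → ℝ), IsLatticeNorm Nrm → CotypeLE Nrm q K →
      ∀ (A : X →ₗ[ℝ] (Fin m → ℝ)), (∀ x, ‖x‖ ≤ Nrm (A x) ∧ Nrm (A x) ≤ D * ‖x‖) →
      ∀ (T : X →ₗ[ℝ] (Fin N → ℝ)), (∀ x, ‖x‖ ≤ ‖T x‖ ∧ ‖T x‖ ≤ 2 * ‖x‖) →
        Real.exp (c * n) ≤ N := by
  set K' : ℝ := max K 1 with hK'
  have hK1 : 1 ≤ K' := le_max_right _ _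
  set D' : ℝ := max D 1 with hD'
  have hD1 : 1 ≤ D' := le_max_right _ _
  set Q : ℕ := ⌈2 * q⌉₊ with hQdef
  have hQq : 2 * q ≤ Q := Nat.le_ceil _
  have hQ2 : 2 ≤ Q := by
    have : (2 : ℝ) ≤ Q := by linarith
    exact_mod_cast this
  obtain ⟨k₀, hk₀, hcore⟩ := core hQ2 (K := 2 + 16 * K') (D := D') (by positivity) (by positivity)
  have hk₀' : (0 : ℝ) < k₀ := by exact_mod_cast (by omega : 0 < k₀)
  refine ⟨1 / (8 * k₀), by positivity, ?_⟩
  intro n N m hn X _ _ hfin Nrm hlat hcot A hA T hT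
  have hfd : FiniteDimensional ℝ X := FiniteDimensional.of_finrank_pos (by omega)
  let e : Module.Basis (Fin n) ℝ X := Module.finBasisOfFinrankEq ℝ X hfin
  -- the cotype hypothesis with the larger constant
  have hcot' : CotypeLE Nrm q K' := by
    intro k x
    refine (hcot k x).trans ?_
    apply mul_le_mul_of_nonneg_right (le_max_left _ _) (Real.sqrt_nonneg _)
  have hAC : AC Nrm Q (2 + 16 * K') :=
    AC_of_lower hlat (by linarith) (by linarith) (lower_of_cotype hlat hcot') hQq
  -- `N ≥ n`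
  have hinj : Function.Injective T := by
    rw [injective_iff_map_eq_zero]
    intro x hx
    have := (hT x).1
    rw [hx, norm_zero] at this
    exact norm_le_zero_iff.1 this
  have hNn : n ≤ N := by
    have := LinearMap.finrank_le_finrank_of_injective hinj
    rw [hfin] at this
    simpa using this
  have hN2 : 2 ≤ N := by omega
  -- coordinates
  let A' : Matrix (Fin m) (Fin n) ℝ := Matrix.of fun b i => A (e i) b
  let Φ : Matrix (Fin N) (Fin n) ℝ := Matrix.of fun j i => T (e i) j
  let vec : (Fin n → ℝ) → X := fun x => ∑ i, x i • e i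
  have hA' : ∀ x, A'.mulVec x = A (vec x) := by
    intro x
    ext b
    simp only [Matrix.mulVec, dotProduct, vec, map_sum, map_smul, Finset.sum_apply,
      Pi.smul_apply, smul_eq_mul, A', Matrix.of_apply]
    exact Finset.sum_congr rfl fun i _ => mul_comm _ _
  have hΦ : ∀ x, Φ.mulVec x = T (vec x) := by
    intro x
    ext b
    simp only [Matrix.mulVec, dotProduct, vec, map_sum, map_smul, Finset.sum_apply,
      Pi.smul_apply, smul_eq_mul, Φ, Matrix.of_apply]
    exact Finset.sum_congr rfl fun i _ => mul_comm _ _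
  have h0 : ∀ x, A'.mulVec x = 0 → x = 0 := by
    intro x hx
    rw [hA'] at hx
    have h1 := (hA (vec x)).1
    rw [hx, hlat.zero] at h1
    have h2 : vec x = 0 := norm_le_zero_iff.1 h1
    have h3 : e.equivFun (vec x) = x := by
      have : vec x = e.equivFun.symm x := by rw [Module.Basis.equivFun_symm_apply]
      rw [this, LinearEquiv.apply_symm_apply]
    rw [← h3, h2, map_zero]
  have h1 : ∀ x, ∃ j, Nrm (A'.mulVec x) ≤ D' * |(Φ.mulVec x) j| := by
    intro x
    rw [hA', hΦ]
    obtain ⟨j, hj⟩ : ∃ j, ‖T (vec x)‖ ≤ |T (vec x) j| := by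
      by_contra hcon
      push Not at hcon
      have hpos : 0 < ‖T (vec x)‖ := (abs_nonneg _).trans_lt (hcon ⟨0, by omega⟩)
      have := (pi_norm_lt_iff hpos).2 (fun j => by
        rw [Real.norm_eq_abs]; exact hcon j)
      exact lt_irrefl _ this
    refine ⟨j, ?_⟩
    have h2 := (hA (vec x)).2
    have h3 := (hT (vec x)).1
    calc Nrm (A (vec x)) ≤ D * ‖vec x‖ := h2
      _ ≤ D' * ‖vec x‖ := by
          apply mul_le_mul_of_nonneg_right (le_max_left _ _) (norm_nonneg _)
      _ ≤ D' * |T (vec x) j| := by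
          apply mul_le_mul_of_nonneg_left (h3.trans hj) (by linarith)
  have h2 : ∀ x j, |(Φ.mulVec x) j| ≤ 2 * Nrm (A'.mulVec x) := by
    intro x j
    rw [hA', hΦ]
    have h3 := (hA (vec x)).1
    have h4 := (hT (vec x)).2
    have h5 : |T (vec x) j| ≤ ‖T (vec x)‖ := by
      have := norm_le_pi_norm (T (vec x)) j
      rwa [Real.norm_eq_abs] at this
    linarith
  have hmain := hcore (by omega) hlat hAC A' Φ h0 h1 h2
  have hNr : (2 : ℝ) ≤ N := by exact_mod_cast hN2
  have hlog : Real.log (N * 2 : ℕ) ≤ 2 * Real.log N := by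
    have e1 : (2 : ℝ) * Real.log N = Real.log ((N : ℝ) * N) := by
      rw [Real.log_mul (by positivity) (by positivity)]; ring
    rw [e1]
    push_cast
    apply Real.log_le_log (by positivity)
    nlinarith
  have h3 : (1 / (8 * k₀) : ℝ) * n ≤ Real.log N := by
    have e2 : (n : ℝ) ≤ 8 * k₀ * Real.log N := by
      have e3 : 4 * (k₀ : ℝ) * Real.log (N * 2 : ℕ) ≤ 4 * k₀ * (2 * Real.log N) := by gcongr
      linarith
    rw [one_div, inv_mul_le_iff₀ (by positivity)]
    exact e2
  calc Real.exp (1 / (8 * k₀) * n) ≤ Real.exp (Real.log N) := Real.exp_le_exp.2 h3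
    _ = N := Real.exp_log (by positivity)

end Pool.Agent.Results.MP_3d048b_an.CotypeLattices
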